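import Pool.Agent.helper34.DT.Spec

/-! # Project dt, module CE: eigenvalues of a skew positive endomorphism -/

namespace Pool.Agent.HC.DT

open Pool.Agent.HC

theorem CE : CE_stmt := by
  intro W _ _ Lam ψ hψ Z hskew hpos μ v hv hZ
  have hμ : ∀ w : W, μ • w = μ.re • w + μ.im • (Complex.I • w) := by
    intro w
    have h1 : μ = (μ.re : ℂ) + (μ.im : ℂ) * Complex.I := (Complex.re_add_im μ).symm
    conv_lhs => rw [h1]
    rw [add_smul, mul_smul]
    rfl
  have hI : ∀ w : W, Complex.I • (Complex.I • w) = -w := by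
    intro w
    rw [smul_smul, Complex.I_mul_I, neg_one_smul]
  have hvI : 0 < ψ v (Complex.I • v) := hψ.pos v hv
  have h2 : ψ (Z v) (Complex.I • v) + ψ v (Z (Complex.I • v)) = 0 := hskew v (Complex.I • v)
  have h3 : Z (Complex.I • v) = μ • (Complex.I • v) := by
    rw [map_smul, hZ, smul_smul, smul_smul, mul_comm]
  rw [h3, hZ, hμ, hμ, hI] at h2
  simp only [map_add, map_smul, map_neg, LinearMap.add_apply, LinearMap.smul_apply, smul_eq_mul,
    hψ.alt, smul_neg] at h2
  have h4 := hpos v hv
  rw [hZ, hμ] at h4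
  simp only [map_add, map_smul, smul_eq_mul, hψ.alt] at h4
  constructor
  · have h5 : μ.re * ψ v (Complex.I • v) = 0 := by linarith
    rcases mul_eq_zero.mp h5 with h | h
    · exact h
    · exact absurd h hvI.ne'
  · have h5 : 0 < μ.im * ψ v (Complex.I • v) := by linarith
    exact (pos_iff_pos_of_mul_pos h5).mpr hvI

end Pool.Agent.HC.DT
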